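import Pool.Agent.Helper104.ER.Sys

set_option autoImplicit false

open Polynomial Pool.Agent.W432.PC

/-!
# Three singular points: explicit exceptional relations and an explicit density of primes

We consider all systems of rank `r` on the projective line with the singular points `0`, `1` and
infinity and with rational exponents. Let `K = 108 r ^ 6` and `Q = 8 (K + 1) ^ (3 r)`. Then either
there is a relation between the exponents with coefficients at most `2 K + 1` and a denominator `D`
which is squarefree with `φ(D) < Q`, or the `p`-curvatures do not vanish for at least a proportion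
`1 / Q` of the residue classes of the primes `p` modulo the common denominator of the exponents. The
known theorems for systems of any rank give a finite set of relations and a density by compactness
arguments, which are not explicit.

Proof. Let `z(a)` be the product over the singular points of the means of the numbers
`exp(2 π i a λ)`, `λ` an exponent at the point.

* If the `p`-curvatures vanish for arbitrarily large primes `p = -1 / a` modulo `N`, then by the theorem
  `Pool.Agent.W432.PC.main` the multiples by `a` of the exponents satisfy a degree inequality. It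
  implies that `1 - Re z(a) ≤ 3 r ^ 4 (1 - |z(a)| ^ 2)`: if `|z(a)|` is near to one, the `a λ` are at each
  point near to some number, and these numbers have sum zero modulo the integers (they are not near
  to a nontrivial scalar matrix of determinant one).
* The moments `w_k`, the sums over the units `a` modulo `N` of `|z(a)| ^ (2 k)`, satisfy
  `w_K ≥ φ(N) (1 / (K + 1) ^ (3 r) - 1 / Q)`, if there is no relation with row sums zero, by the
  inequality of Cauchy and Schwarz for the histograms of families of `K` choice functions, since the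
  sum over the units of the powers of a root of unity of order `D` is `φ(N) μ(D) / φ(D)` (Ramanujan).
  The sums of the `|z(a)| ^ (2 k) z(a)` are at most `φ(N) / Q` in absolute value, if there is no
  relation with row sums one.
* So `w_(k+1) ≤ (1 - 1 / C) w_k + (φ(N) / Q + 2 b) / C`, where `C = 3 r ^ 4` and `b` is the number of the
  bad units. As `(1 - 1 / C) ^ K ≤ 1 / (2 (K + 1) ^ (3 r))` we get `b ≥ φ(N) / Q`.
-/

namespace Pool.Agent.Results.MP_5e5ff1_ag.ExplicitDensity

universe u

/-- Let `∇ = d/dt - (b / t + c / (t - 1))` be a system of rank `r ≥ 2` over a domain `R` of finite type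
over `ℤ`, of characteristic zero (for example the ring of integers of a number field with finitely
many primes inverted). Let its exponents be rational: `lam 0 l` at `0` (the eigenvalues of `b`),
`lam 1 l` at `1` (the eigenvalues of `c`) and `lam 2 l` at infinity (the eigenvalues of `-(b + c)`),
with the common denominator `N`. Let `K = 108 r ^ 6` and `Q = 8 (K + 1) ^ (3 r)`.

Then one of the following holds:

* there are integers `h i l` with the same sum `ε` over `l` for `i = 0, 1, 2`, which is zero or one,
  such that `∑ l, |h i l| ≤ 2 K + 1` for all `i` and such that the denominator `D` of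
  `∑ i, ∑ l, h i l * lam i l` is squarefree with `φ(D) < Q`, and not one if `ε = 0`; if all prime
  factors of `N` are larger than `Q`, then `ε = 1` and `D = 1`, i.e. `∑ i, ∑ l, h i l * lam i l` is an
  integer;
* there is a set `V` of at least `φ(N) / Q` residue classes modulo `N`, prime to `N`, such that the
  `p`-curvature of `∇` is nonzero at every closed point of `Spec R` whose residue characteristic is a
  large prime in one of these classes; in particular the `p`-curvatures do not vanish on a dense open
  subset of `Spec R`. -/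
theorem result {R : Type u} [CommRing R] [IsDomain R] [CharZero R] [Algebra.FiniteType ℤ R]
    {r : ℕ} (hr : 2 ≤ r) (b c : Matrix (Fin r) (Fin r) R) (lam : Fin 3 → Fin r → ℚ)
    (h0 : HasExponents b (lam 0)) (h1 : HasExponents c (lam 1))
    (h2 : HasExponents (b + c) (fun l => -lam 2 l))
    (N : ℕ) (hN : 0 < N) (hNlam : ∀ i l, ∃ z : ℤ, (N : ℚ) * lam i l = z) (K Q : ℕ)
    (hK : K = 108 * r ^ 6) (hQ : Q = 8 * (K + 1) ^ (3 * r)) :
    (∃ (ε : ℤ) (h : Fin 3 → Fin r → ℤ) (D : ℕ), (ε = 0 ∨ ε = 1) ∧ (∀ i, ∑ l, h i l = ε) ∧
      (∀ i, ∑ l, |h i l| ≤ 2 * K + 1) ∧ D = (∑ i, ∑ l, (h i l : ℚ) * lam i l).den ∧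
      Squarefree D ∧ D.totient < Q ∧ (ε = 0 → D ≠ 1) ∧
      ((∀ p : ℕ, p.Prime → p ∣ N → Q < p) → ε = 1 ∧ D = 1)) ∨
    ((∃ (V : Finset (ZMod N)ˣ) (P₀ : ℕ), N.totient ≤ Q * V.card ∧
      ∀ p : ℕ, p.Prime → P₀ < p → (∃ v ∈ V, ((p : ℕ) : ZMod N) = ((v : (ZMod N)ˣ) : ZMod N)) →
        ∀ (𝔪 : Ideal R) [𝔪.IsMaximal], (p : R) ∈ 𝔪 → ¬ PCurvZeroAt ![0, 1] ![b, c] 𝔪) ∧
      ¬ CondII (![0, 1] : Fin 2 → R) ![b, c]) := by
  have hQ0 : 0 < Q := by rw [hQ]; positivity
  have hQR : (0 : ℝ) < Q := by exact_mod_cast hQ0
  have hα : ∀ i j : Fin 2, i ≠ j → IsUnit ((![0, 1] : Fin 2 → R) i - ![0, 1] j) := by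
    intro i j hij
    fin_cases i <;> fin_cases j
    · exact absurd rfl hij
    · simp
    · simp
    · exact absurd rfl hij
  have hlam : ∀ j : Fin 2, HasExponents ((![b, c] : Fin 2 → Matrix (Fin r) (Fin r) R) j)
      (lam j.castSucc) := by
    intro j
    fin_cases j
    · exact h0
    · exact h1
  have hinf : HasExponents (∑ j, (![b, c] : Fin 2 → Matrix (Fin r) (Fin r) R) j)
      (fun l => -lam (Fin.last 2) l) := by
    rw [Fin.sum_univ_two]
    exact h2
  have hcard : (Finset.univ : Finset (Fin 3)).card = 3 := by simp
  rcases Pool.Agent.Helper104.ER.systems hr ![0, 1] hα ![b, c] lam hlam hinf N hN hNlam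
    Finset.univ Finset.univ_nonempty (fun i hi => absurd (Finset.mem_univ i) hi) K Q
    (by rw [hcard, hK]; ring) (by rw [hcard, hQ, mul_comm r 3]) with
    ⟨ε, h, h1, h2, h3, h4, h5, h6, h7⟩ | ⟨⟨V, P₀, h1, h2⟩, h3⟩
  · exact Or.inl ⟨ε, h, _, h1, h2, h3, rfl, h4, h5, h6, h7⟩
  · right
    refine ⟨⟨V, P₀, ?_, fun p hp hpP hpv 𝔪 h𝔪 hpm => h2 p hp hpP hpv 𝔪 hpm fun h =>
      h𝔪.ne_top ((Ideal.eq_top_iff_one _).2 h)⟩, h3⟩
    rw [one_div, inv_mul_le_iff₀ hQR] at h1
    exact_mod_cast h1

end Pool.Agent.Results.MP_5e5ff1_ag.ExplicitDensity
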