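import Pool.Agent.Helper104.PCD.SplitOff

set_option autoImplicit false

open Polynomial Pool.Agent.W432.PC Pool.Agent.W432.TC Pool.Agent.W432.HK Pool.Agent.Y227.SS
open Pool.Agent.TH571.GP Pool.Agent.Y227.TP Pool.Agent.Helper104.PCD

/-!
# Large primes split off the exponents of systems with vanishing `p`-curvatures

By Jordan's theorem a finite group with a faithful representation of degree `r` has an abelian normal
subgroup which contains its Sylow subgroups for all primes above a bound depending only on `r`; so the
local monodromies of a system of rank `r` with finite monodromy are products of commuting elements,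
the prime-to-`M` parts are again the local monodromies of a system with finite monodromy, and the
`M`-parts can be raised to arbitrary powers, if all prime factors of `M` are above the bound.  Here
it is shown that the exponents of a system with vanishing `p`-curvatures behave in the same way, as
far as the existence of semistable parabolic bundles with these weights is concerned.

Proof.  If there are few bad classes, the starting results give finitely many torsion cosets, all of
whose points are semistable weights, which contain all the conjugates of the exponents.  If the order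
`M` of the point `nu` is prime to the order of `mu` and to the denominators of the cosets, then a
coset containing `a mu + nu` contains all the points `a mu + k nu`.
-/

namespace Pool.Agent.Results.MP_5e5ff1_ag.LargePrimesSplitOff

universe u

/-- Systems of any rank `r` on the projective line, with any number `n + 1` of singular points and of
accessory parameters.  For `n = 2`, `α = (0, 1)` these are the systems of the problem, with `b = A 0`,
`c = A 1`.

For all `n` and `r` there are `ε > 0` and a bound `P`, depending only on `n` and `r`, with the following
property.  Let `∇ = d/dx - ∑ j, A j / (x - α j)` be a system of rank `r` over a domain `R` of finite type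
over `ℤ`, of characteristic zero, with `α i - α j` invertible for `i ≠ j`, with rational exponents
`lam j l` (the eigenvalues of `A j`) and `phi l` (the eigenvalues of `∑ j, A j`) and with a common
denominator `N` of the exponents.  Then one of the following holds.
* There are at least `ε φ(N)` residue classes modulo `N` such that for all large primes `p` in these
  classes the `p`-curvature of `∇` is nonzero at every closed point of `Spec R` of residue
  characteristic `p`.  In particular the `p`-curvatures do not vanish on a dense open subset of `Spec R`.
* Write the exponents in any way as sums `mu + nu`, where the denominators of the `mu i` divide `N₀`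
  and those of the `nu i` divide `M`, the numbers `N₀` and `M` are coprime, and all prime factors of
  `M` are larger than `P`.  Then for all integers `a` prime to `N₀` and ALL integers `k` the numbers
  `a mu i + k nu i` are the weights, modulo the integers, of a semistable parabolic bundle of
  parabolic degree zero on the projective line over `ℂ`, at `n` points and at infinity (with the
  opposite weights at infinity).

So for `k = 0` the large primes may be omitted from the denominators.  (Several large primes can be
treated separately: by the Chinese remainder theorem `k` can be prescribed modulo the coprime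
factors of `M`.)  For the conjugates of the exponents themselves, that is for `k` prime to `M`, the
second alternative is a starting result. -/
theorem result (n r : ℕ) :
    ∃ (ε : ℝ) (P : ℕ), 0 < ε ∧
      ∀ (R : Type u) [CommRing R] [IsDomain R] [CharZero R] [Algebra.FiniteType ℤ R]
        (α : Fin n → R) (A : Fin n → Matrix (Fin r) (Fin r) R),
        (∀ i j, i ≠ j → IsUnit (α i - α j)) →
        ∀ (lam : Fin n → Fin r → ℚ) (phi : Fin r → ℚ) (N : ℕ), (∀ j, HasExponents (A j) (lam j)) →
          HasExponents (∑ j, A j) phi → CommonDen lam phi N →
          (BadClasses α A N ε 1 ∧ ¬ CondII α A) ∨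
          ∀ (mu nu : ExponentIndex n r → ℚ) (N₀ M : ℕ),
            (∀ j l, lam j l = mu (Sum.inl (j, l)) + nu (Sum.inl (j, l))) →
            (∀ l, phi l = mu (Sum.inr l) + nu (Sum.inr l)) → 0 < N₀ → 0 < M → N₀.Coprime M →
            (∀ p : ℕ, p.Prime → p ∣ M → P < p) → (∀ i, ∃ z : ℤ, (N₀ : ℚ) * mu i = z) →
            (∀ i, ∃ z : ℤ, (M : ℚ) * nu i = z) → ∀ a k : ℤ, IsCoprime a (N₀ : ℤ) →
              SemistableWeights ℂ
                (fun j l => (a : ℝ) * mu (Sum.inl (j, l)) + k * nu (Sum.inl (j, l)))
                (fun l => (a : ℝ) * mu (Sum.inr l) + k * nu (Sum.inr l)) := by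
  obtain ⟨ε, P, hε, h⟩ := split_off.{u} n r
  refine ⟨ε, P, hε, ?_⟩
  intro R _ _ _ _ α A hα lam phi N hlam hphi hN
  rcases h R α A hα lam phi N hlam hphi hN with hbad | h
  · left
    refine ⟨hbad, ?_⟩
    obtain ⟨S, P₀, hS, hP⟩ := hbad
    have hN0 := hN.1
    have : NeZero N := ⟨hN0.ne'⟩
    have hφ : 0 < (N.totient : ℝ) := by exact_mod_cast Nat.totient_pos.mpr hN0
    have hcard : 0 < (S.card : ℝ) := lt_of_lt_of_le (mul_pos hε hφ) hS
    have hne : S.Nonempty := Finset.card_pos.mp (by exact_mod_cast hcard)
    obtain ⟨v, hv⟩ := hne
    set a : ℤ := -(((v⁻¹ : (ZMod N)ˣ) : ZMod N).val : ℤ) with ha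
    have haz : ((a : ℤ) : ZMod N) = -((v⁻¹ : (ZMod N)ˣ) : ZMod N) := by
      rw [ha]; push_cast; rw [ZMod.natCast_zmod_val]
    have hcop : IsCoprime a (N : ℤ) := by
      rw [ha]
      exact (Nat.isCoprime_iff_coprime.mpr (ZMod.val_coe_unit_coprime v⁻¹)).neg_left
    refine not_condII_of α A N hN0 a hcop ⟨1, one_ne_zero, P₀, fun p hp hpP hap 𝔪 h𝔪 hpm _ => ?_⟩
    refine hP p hp hpP ⟨v, hv, ?_⟩ 𝔪 hpm (fun h1 => ?_)
    · have h2 : ((a * p + 1 : ℤ) : ZMod N) = 0 := (ZMod.intCast_zmod_eq_zero_iff_dvd _ _).mpr hap
      push_cast at h2
      rw [haz] at h2
      have h3 : ((v⁻¹ : (ZMod N)ˣ) : ZMod N) * (p : ZMod N) = 1 := by linear_combination -h2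
      calc (p : ZMod N) = (v : ZMod N) * (((v⁻¹ : (ZMod N)ˣ) : ZMod N) * (p : ZMod N)) := by
            rw [← mul_assoc, ← Units.val_mul, mul_inv_cancel, Units.val_one, one_mul]
        _ = (v : ZMod N) := by rw [h3, mul_one]
    · exact h𝔪.ne_top ((Ideal.eq_top_iff_one _).mpr h1)
  · exact Or.inr h

end Pool.Agent.Results.MP_5e5ff1_ag.LargePrimesSplitOff
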