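import Pool.Agent.Helper104.PCD.OnePoint

set_option autoImplicit false

open Polynomial Pool.Agent.W432.PC Pool.Agent.Helper104.PCD

/-!
# Primes dividing the orders of the local monodromies at one point only

Proof.  The start theorem `Pool.Agent.W432.PC.main` says: if the `p`-curvature vanishes at closed points
of arbitrarily large residue characteristic `p` with `a p = -1` modulo `N`, then for all integral lifts
`Z i l` of the residues modulo `N` of `a N lam i l` (at all points `i`, infinity included), with
`x i ≤ Z i l` and `∑ i, x i ≥ 1`, the sum of all the `Z i l` is at least `r N`.  The unit `a` is chosen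
by the Chinese remainder theorem: modulo `M k` by Dirichlet's theorem on simultaneous approximation,
so that the multiples of the parts `nu k i l` are near zero and have sum zero (the sum of the `nu k i l`
is an integer since the denominators are coprime; one summand is free, and the sign of the unit is
chosen so that it is positive); and modulo `N₀` so that one of the numbers `a mu i₀ l` is `b / m`
modulo `ℤ`; then the representatives in `[b / m, b / m + 1)` of the `a mu i₀ l` or those of the
`-a mu i₀ l` have a sum smaller than `r`.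
-/

namespace Pool.Agent.Results.MP_5e5ff1_ag.PrimesAtOnePoint

/-- Systems of any rank `r` on the projective line, with any number of singular points and of
accessory parameters.  For `n = 2`, `α = (0, 1)` these are the systems of the problem, with `b = A 0`,
`c = A 1`.

Let `∇ = d/dx - ∑ j, A j / (x - α j)` be a system of rank `r` over a domain `R` of finite type over `ℤ`,
of characteristic zero, with `α i - α j` invertible for `i ≠ j`.  Let its exponents be rational:
`lam j.castSucc l` at `α j` (the eigenvalues of `A j`) and `lam (Fin.last n) l` at infinity (the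
eigenvalues of `-∑ j, A j`).  Write the exponents, perhaps shifted by rational numbers `c i` with sum
zero, as sums of parts with coprime denominators: the part `mu i l` has a denominator dividing `N₀`,
the part `nu k i l` a denominator dividing `M k`, and `N₀` and the numbers `M k` are pairwise coprime
(`hdec`, `hmu`, `hnu`, `hcop`, `hcop'`).

Suppose that the denominators of the `mu i l` occur at one point only: `mu i l` is an integer for
`i ≠ i₀`, and some `mu i₀ l` is not.  Suppose that the prime factors of the numbers `M k` are not too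
small: they exceed `(q k) ^ d k`, where `d k` is the number of the different non-integral values of
`nu k`, up to sign and modulo `ℤ`, and one of the exponents (`e k`) may be disregarded; and
`∑ k, s k / q k ≤ 1 / 6`, where `s k` is the number of the singular points at which `nu k` is not
integral (`S k`).  The bound `1 / 6` may be replaced by every fraction `b / m ≤ 1 / 2` in lowest terms
whose denominator `m` is the denominator of one of the `mu i₀ l` (so by `1 / 2` if `m = 2`, by
`(m - 1) / (2 m)` if `m` is odd, and by `1 / 4` if `6 ∤ m`).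

Then for every common denominator `N` of the exponents there is a residue class modulo `N` such that
for all large primes `p` in the class the `p`-curvature of `∇` is nonzero at every closed point of
`Spec R` of residue characteristic `p`.  In particular the `p`-curvatures do not vanish on a dense open
subset of `Spec R`.

Example 1: three singular points, the exponents at the points `0`, `1` and infinity have
denominators dividing `N₀`, `N₁` and `N₂`, which are pairwise coprime, not all the exponents at `0` are
integers, and all the prime factors of `N₁` and `N₂` exceed `12 ^ (r - 1)` (exceed `6 ^ (r - 1)` if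
`N₀` is odd, and if `d` non-integral values modulo `ℤ`, not counting one exponent of multiplicity one,
occur at a point, `r - 1` may be replaced by `d`).

Example 2 (one part `nu`): `N = N₀ M` is a common denominator, `N₀` and `M` are coprime, the prime
factors of `N₀` divide the denominators of the exponents at one of the three points only, and all
the prime factors of `M` exceed `18 ^ (3 r - 1)`. -/
theorem result {R : Type*} [CommRing R] [IsDomain R] [CharZero R] [Algebra.FiniteType ℤ R]
    {n r : ℕ} (α : Fin n → R) (hα : ∀ i j, i ≠ j → IsUnit (α i - α j))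
    (A : Fin n → Matrix (Fin r) (Fin r) R) (lam : Fin (n + 1) → Fin r → ℚ)
    (hlam : ∀ j : Fin n, HasExponents (A j) (lam j.castSucc))
    (hinf : HasExponents (∑ j, A j) (fun l => -lam (Fin.last n) l))
    {ι : Type*} [Fintype ι] (c : Fin (n + 1) → ℚ) (mu : Fin (n + 1) → Fin r → ℚ)
    (nu : ι → Fin (n + 1) → Fin r → ℚ) (hc : ∑ i, c i = 0)
    (hdec : ∀ i l, lam i l = c i + mu i l + ∑ k, nu k i l)
    (N₀ : ℕ) (M : ι → ℕ) (hN₀ : 0 < N₀) (hM : ∀ k, 0 < M k)
    (hcop : ∀ k, N₀.Coprime (M k)) (hcop' : ∀ k k', k ≠ k' → (M k).Coprime (M k'))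
    (hmu : ∀ i l, ∃ z : ℤ, (N₀ : ℚ) * mu i l = z)
    (hnu : ∀ k i l, ∃ z : ℤ, (M k : ℚ) * nu k i l = z)
    (i₀ : Fin (n + 1)) (hi₀ : ∀ i, i ≠ i₀ → ∀ l, ∃ z : ℤ, mu i l = z)
    (S : ι → Finset (Fin (n + 1))) (hS : ∀ k i, i ∉ S k → ∀ l, ∃ z : ℤ, nu k i l = z)
    (T : ι → Finset ℚ) (e : ι → Fin (n + 1) × Fin r)
    (hT : ∀ k i l, (i, l) ≠ e k → (∃ z : ℤ, nu k i l = z) ∨
      ∃ θ ∈ T k, (∃ z : ℤ, nu k i l - θ = z) ∨ ∃ z : ℤ, nu k i l + θ = z)
    (q : ι → ℕ) (hq : ∀ k, 0 < q k) (hqM : ∀ k p, p.Prime → p ∣ M k → q k ^ (T k).card < p)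
    (hsum : (∑ k, ((S k).card : ℚ) / q k ≤ 1 / 6 ∧ ∃ l, ¬ ∃ z : ℤ, mu i₀ l = z) ∨
      ∃ l, ∃ b : ℕ, 0 < b ∧ b.Coprime (mu i₀ l).den ∧ 2 * b ≤ (mu i₀ l).den ∧
        ∑ k, ((S k).card : ℚ) / q k ≤ b / (mu i₀ l).den) :
    (∀ N : ℕ, 0 < N → (∀ i l, ∃ z : ℤ, (N : ℚ) * lam i l = z) →
      ∃ a : ℤ, IsCoprime a (N : ℤ) ∧ ∃ P₀ : ℕ, ∀ p : ℕ, p.Prime → P₀ < p → (N : ℤ) ∣ a * p + 1 →
        ∀ (𝔪 : Ideal R) [𝔪.IsMaximal], (p : R) ∈ 𝔪 → ¬ PCurvZeroAt α A 𝔪) ∧
    ¬ CondII α A := by
  have H : Parts ι lam c mu nu N₀ M q S T e :=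
    ⟨hc, hdec, hN₀, hM, hcop, hcop', hmu, hnu, hS, hT, hq, hqM⟩
  have key : ∀ N : ℕ, 0 < N → (∀ i l, ∃ z : ℤ, (N : ℚ) * lam i l = z) →
      ∃ a : ℤ, IsCoprime a (N : ℤ) ∧ Bad α A N a := fun N hN hNlam =>
    one_point α hα A lam hlam hinf H i₀ hi₀ hsum N hN hNlam
  refine ⟨key, ?_⟩
  obtain ⟨N, hN, hNlam⟩ : ∃ N : ℕ, 0 < N ∧ ∀ i l, ∃ z : ℤ, (N : ℚ) * lam i l = z := by
    refine ⟨∏ i, ∏ l, (lam i l).den, Finset.prod_pos fun i _ => Finset.prod_pos fun l _ =>
      (lam i l).den_pos, fun i l => ?_⟩
    obtain ⟨d, hd⟩ : (lam i l).den ∣ ∏ i, ∏ l, (lam i l).den :=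
      (Finset.dvd_prod_of_mem (fun l => (lam i l).den) (Finset.mem_univ l)).trans
        (Finset.dvd_prod_of_mem (fun i => ∏ l, (lam i l).den) (Finset.mem_univ i))
    refine ⟨d * (lam i l).num, ?_⟩
    rw [hd]
    push_cast
    have := Rat.den_mul_eq_num (lam i l)
    rw [mul_comm ((lam i l).den : ℚ) d, mul_assoc, this]
  obtain ⟨a, ha, P₀, hP⟩ := key N hN hNlam
  exact not_condII_of _ _ N hN a ha
    ⟨1, one_ne_zero, P₀, fun p hp hpP hap 𝔪 _ hpm _ => hP p hp hpP hap 𝔪 hpm⟩

end Pool.Agent.Results.MP_5e5ff1_ag.PrimesAtOnePoint
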